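import Mathlib
import Pool.Agent.H76UF.B

set_option autoImplicit false

/-!
# Strict growth of the number of solutions of `∑ 1/x_i + 1/(n ∏ x_i) = 1/n`
-/

namespace Pool.Agent.Results.MP_861132_nt.StrictGrowthMod5

/-- The number of solutions of length `s`: a strictly increasing tuple `1 < x_1 < ... < x_s` is given
by the finite set of its entries. -/
noncomputable def Omega (n s : ℕ) : ℕ :=
  {S : Finset ℕ | S.card = s ∧ (∀ x ∈ S, 1 < x) ∧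
    ∑ x ∈ S, (1 : ℚ) / x + 1 / ((n : ℚ) * ((∏ x ∈ S, x : ℕ) : ℚ)) = 1 / n}.ncard

theorem result : ∀ n s : ℕ, 1 ≤ n → 4 ≤ s →
    0 < Omega n s ∧
    ((((n % 5 = 2 ∧ s % 2 = 1) ∨ ((n % 5 = 1 ∨ n % 5 = 3) ∧ s % 2 = 0)) ∨
      (∃ N : ℕ, ((n % 5 = 2 ∧ N = n) ∨ ((n % 5 = 1 ∨ n % 5 = 3) ∧ N = n * (n + 1))) ∧
        (25 ∣ N ^ 2 + 1 ∨ ∃ d, d % 5 = 2 ∧ d ∣ N ^ 2 + 1)) ∨
      (n % 10 = 7 ∨ n % 25 = 8 ∨ n % 25 = 11 ∨ n % 25 = 13 ∨ n % 25 = 16)) →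
      Omega n s < Omega n (s + 1)) := by
  intro n s hn hs
  refine ⟨Pool.Agent.H76UF.pos_ncard hn s, ?_⟩
  rintro (h | ⟨N, hN, h⟩ | h)
  · exact Pool.Agent.H76UF.half hn hs h
  · exact Pool.Agent.H76UF.full hn hs hN h
  · exact Pool.Agent.H76UF.classes hn hs h

end Pool.Agent.Results.MP_861132_nt.StrictGrowthMod5
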